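import Pool.Agent.Helper10.CYC.Merge
import Pool.Agent.Helper57.CYC.Theta
import Pool.Agent.Helper89.CYC.DD

/-!
# The relations (T1) and (E2) in determinant form (S10221, even size, track C, piece C2a)

`f = ∏ (X - y_i)` over a commutative ring `R` of characteristic two, `H = 1 / ∏ (1 + y_i T)`.
From the merged gap relations:

* `t1_form`: `dd f (Γ X^{2i} (i < s), ψ X^{2j} (j < l)) = 0`;
* `e2_form`: the coefficient of `T^{s+1}` in
  `H(T) * dd f (Γ (1 + X T) X^{2i} (i < s), ψ X^{2j} (j < l))` is zero.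
-/

set_option autoImplicit false

namespace Pool.Agent.Helper54.CYC

open Finset Polynomial Pool.Agent.Helper10.CYC

/-! ### The sum over the second block -/

section qj

variable {A : Type} [CommRing A] {s l : ℕ}

lemma sum_perm_zero' {α M : Type*} [CommRing M] [CharP M 2] {n : ℕ} (E : Fin n → α)
    (i j : Fin n) (hij : i ≠ j) (hE : E i = E j) (F : (Fin n → α) → M) :
    ∑ σ : Equiv.Perm (Fin n), F (fun t => E (σ t)) = 0 := by
  classical
  refine Finset.sum_involution (fun σ _ => σ.trans (Equiv.swap i j)) ?_ ?_ ?_ ?_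
  · intro σ _
    have h1 : (fun t => E ((σ.trans (Equiv.swap i j)) t)) = fun t => E (σ t) := by
      ext1 t
      rw [Equiv.trans_apply]
      by_cases h : σ t = i
      · rw [h, Equiv.swap_apply_left, hE]
      · by_cases h' : σ t = j
        · rw [h', Equiv.swap_apply_right, hE]
        · rw [Equiv.swap_apply_of_ne_of_ne h h']
    rw [h1]
    exact CharTwo.add_self_eq_zero _
  · intro σ _ _ heq
    apply hij
    have h1 := congrArg (fun π : Equiv.Perm (Fin n) => π (σ.symm i)) heq
    simp only [Equiv.trans_apply, Equiv.apply_symm_apply, Equiv.swap_apply_left] at h1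
    exact h1.symm
  · intro σ _
    exact mem_univ _
  · intro σ _
    ext t
    simp

/-- The sum over the bijections of the second block. -/
noncomputable def QJ (F : A[X]) (gS : Fin s → A[X]) (b d : Fin l → A[X]) : A :=
  ∑ τ : Equiv.Perm (Fin l), dd F (Fin.append gS (fun j => b j * d (τ j)))

lemma QJ_rep [CharP A 2] (F : A[X]) (gS : Fin s → A[X]) (b d : Fin l → A[X]) (i j : Fin l)
    (hij : i ≠ j) (h : d i = d j) : QJ F gS b d = 0 :=
  sum_perm_zero' d i j hij h (fun d' => dd F (Fin.append gS (fun j => b j * d' j)))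

lemma append_update (gS : Fin s → A[X]) (b d : Fin l → A[X]) (τ : Equiv.Perm (Fin l))
    (j : Fin l) (p : A[X]) :
    Fin.append gS (fun t => b t * (Function.update d j p) (τ t))
      = Function.update (Fin.append gS (fun t => b t * d (τ t))) (Fin.natAdd s (τ.symm j))
        (b (τ.symm j) * p) := by
  funext x
  refine Fin.addCases (fun i => ?_) (fun i => ?_) x
  · rw [Fin.append_left, Function.update_of_ne, Fin.append_left]
    intro h
    have := congrArg (fun t : Fin (s + l) => (t : ℕ)) h
    simp only [Fin.val_castAdd, Fin.val_natAdd] at this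
    have := i.2
    omega
  · rw [Fin.append_right]
    by_cases hi : i = τ.symm j
    · subst hi
      rw [Function.update_self, Equiv.apply_symm_apply, Function.update_self]
    · rw [Function.update_of_ne, Function.update_of_ne, Fin.append_right]
      · intro h
        exact hi (Fin.natAdd_injective _ _ h)
      · intro h
        exact hi (by rw [← h, Equiv.symm_apply_apply])

lemma QJ_sum (F : A[X]) (gS : Fin s → A[X]) (b d : Fin l → A[X]) (j : Fin l)
    {ι : Type*} (S : Finset ι) (c : ι → A) (p : ι → A[X]) :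
    QJ F gS b (Function.update d j (∑ i ∈ S, C (c i) * p i))
      = ∑ i ∈ S, c i * QJ F gS b (Function.update d j (p i)) := by
  unfold QJ
  simp only [append_update, mul_sum]
  rw [sum_comm]
  refine sum_congr rfl (fun τ _ => ?_)
  have h1 : ∀ i ∈ S, b (τ.symm j) * (C (c i) * p i) = C (c i) * (b (τ.symm j) * p i) := by
    intro i _; ring
  rw [sum_congr rfl h1, Helper89.CYC.dd_update_sum]

lemma QJ_add (F : A[X]) (gS : Fin s → A[X]) (b d : Fin l → A[X]) (j : Fin l) (c : A)
    (p q : A[X]) :
    QJ F gS b (Function.update d j (p + C c * q))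
      = QJ F gS b (Function.update d j p) + c * QJ F gS b (Function.update d j q) := by
  have h := QJ_sum F gS b d j (univ : Finset (Fin 2)) ![1, c] ![p, q]
  simpa [Fin.sum_univ_two] using h

/-- Row operations. -/
lemma QJ_L [CharP A 2] (F : A[X]) (gS : Fin s → A[X]) (b : Fin l → A[X]) (T : A) (t : ℕ)
    (ht : t + 1 ≤ l) :
    QJ F gS b (fun j => if (j : ℕ) < t then (1 + C T * X) * X ^ (j : ℕ) else X ^ (j : ℕ))
      = QJ F gS b (fun j => X ^ (j : ℕ)) := by
  induction t with
  | zero => simp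
  | succ t ih =>
    rw [← ih (by omega)]
    set D : Fin l → A[X] :=
      fun j => if (j : ℕ) < t then (1 + C T * X) * X ^ (j : ℕ) else X ^ (j : ℕ) with hD
    set j0 : Fin l := ⟨t, by omega⟩ with hj0
    set j1 : Fin l := ⟨t + 1, by omega⟩ with hj1
    have h1 : (fun j : Fin l => if (j : ℕ) < t + 1 then (1 + C T * X) * X ^ (j : ℕ)
        else X ^ (j : ℕ)) = Function.update D j0 (X ^ t + C T * X ^ (t + 1)) := by
      funext j
      by_cases hj : j = j0
      · subst hj
        rw [Function.update_self, hj0]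
        simp only
        rw [if_pos (by omega)]; ring
      · rw [Function.update_of_ne hj, hD]
        have h2 : (j : ℕ) ≠ t := fun h => hj (Fin.ext h)
        by_cases h3 : (j : ℕ) < t
        · simp only
          rw [if_pos h3, if_pos (by omega)]
        · simp only
          rw [if_neg h3, if_neg (by omega)]
    have h2 : Function.update D j0 (X ^ t) = D := by
      rw [Function.update_eq_self_iff, hD, hj0]
      simp
    have h3 : QJ F gS b (Function.update D j0 (X ^ (t + 1))) = 0 := by
      refine QJ_rep F gS b _ j0 j1 ?_ ?_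
      · intro h
        have := congrArg (fun x : Fin l => (x : ℕ)) h
        simp [hj0, hj1] at this
      · rw [Function.update_self, Function.update_of_ne, hD, hj1]
        · simp
        · intro h
          have := congrArg (fun x : Fin l => (x : ℕ)) h
          simp [hj0, hj1] at this
    rw [h1, QJ_add, h2, h3, mul_zero, add_zero]

lemma QJ_scale (y : Fin (s + l) → A) (L : A[X]) (gS : Fin s → A[X])
    (b d : Fin l → A[X]) :
    QJ (∏ i, (X - C (y i))) (fun i => L * gS i) b (fun j => L * d j)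
      = (∏ i, L.eval (y i)) * QJ (∏ i, (X - C (y i))) gS b d := by
  unfold QJ
  rw [mul_sum]
  refine sum_congr rfl (fun τ _ => ?_)
  rw [← Helper57.CYC.dd_mul]
  congr 1
  funext x
  refine Fin.addCases (fun i => ?_) (fun i => ?_) x
  · rw [Fin.append_left, Fin.append_left]
  · rw [Fin.append_right, Fin.append_right]; ring

lemma tel [CharP A 2] (T : A) (e N : ℕ) :
    (1 + C T * X) * ∑ n ∈ range (N + 1), C (T ^ n) * X ^ (n + e)
      = (X ^ e + C (T ^ (N + 1)) * X ^ (N + 1 + e) : A[X]) := by
  have h2 : (2 : A[X]) = 0 := CharTwo.two_eq_zero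
  induction N with
  | zero => simp; ring
  | succ N ih =>
    rw [sum_range_succ, mul_add, ih]
    simp only [map_pow]
    linear_combination (C T ^ (N + 1) * X ^ (N + 1 + e)) * h2

/-- The exchange identity. -/
lemma QJ_exchange [CharP A 2] (y : Fin (s + l) → A) (T : A) (gS : Fin s → A[X])
    (b : Fin l → A[X]) (hl : 1 ≤ l) (N : ℕ) :
    ∃ E : A, QJ (∏ i, (X - C (y i))) (fun i => (1 + C T * X) * gS i) b (fun j => X ^ (j : ℕ))
      = (∏ i, (1 + y i * T)) * ∑ n ∈ range (N + 1), T ^ n *
          QJ (∏ i, (X - C (y i))) gS b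
            (fun j => if (j : ℕ) + 1 = l then X ^ (n + (l - 1)) else X ^ (j : ℕ))
        + T ^ (N + 1) * E := by
  set F : A[X] := ∏ i, (X - C (y i)) with hF
  set L : A[X] := 1 + C T * X with hL
  set jl : Fin l := ⟨l - 1, by omega⟩ with hjl
  set D0 : Fin l → A[X] := fun j => X ^ (j : ℕ) with hD0
  set D1 : Fin l → A[X] := fun j => if (j : ℕ) < l - 1 then L * X ^ (j : ℕ) else X ^ (j : ℕ)
    with hD1
  have hn : ∀ n : ℕ, (fun j : Fin l => if (j : ℕ) + 1 = l then (X : A[X]) ^ (n + (l - 1))
      else X ^ (j : ℕ)) = Function.update D0 jl (X ^ (n + (l - 1))) := by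
    intro n
    funext j
    by_cases hj : j = jl
    · subst hj
      rw [Function.update_self, if_pos (by rw [hjl]; simp only; omega)]
    · rw [Function.update_of_ne hj, if_neg]
      intro h
      exact hj (Fin.ext (by rw [hjl]; simp only; omega))
  simp only [hn]
  rw [← QJ_sum]
  have hev : (∏ i, (1 + y i * T)) = ∏ i, L.eval (y i) := by
    refine prod_congr rfl (fun i _ => ?_)
    rw [hL]; simp; ring
  rw [hev, hF, ← QJ_scale y L, ← hF]
  have h1 : (fun j => L * (Function.update D0 jl
      (∑ n ∈ range (N + 1), C (T ^ n) * X ^ (n + (l - 1)))) j)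
      = Function.update D1 jl (X ^ (l - 1) + C (T ^ (N + 1)) * X ^ (N + 1 + (l - 1))) := by
    funext j
    by_cases hj : j = jl
    · subst hj
      rw [Function.update_self, Function.update_self, hL, tel]
    · have h2 : (j : ℕ) ≠ l - 1 := fun h => hj (Fin.ext h)
      have h3 := j.2
      rw [Function.update_of_ne hj, Function.update_of_ne hj, hD0, hD1]
      simp only
      rw [if_pos (by omega)]
  have h2 : Function.update D1 jl (X ^ (l - 1)) = D1 := by
    rw [Function.update_eq_self_iff, hD1, hjl]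
    simp
  rw [h1, QJ_add, h2]
  have h3 := QJ_L F (fun i => L * gS i) b T (l - 1) (by omega)
  refine ⟨QJ F (fun i => L * gS i) b (Function.update D1 jl (X ^ (N + 1 + (l - 1)))), ?_⟩
  rw [← h3, ← hL, ← hD1, add_assoc, ← two_mul]
  have h4 : (2 : A) = 0 := CharTwo.two_eq_zero
  rw [h4, zero_mul, add_zero]

end qj

/-! ### Extraction of a coefficient -/

section raw

variable {R : Type} [CommRing R] {s l : ℕ}

lemma monic_prod {k : ℕ} (y : Fin k → R) : (∏ i, (X - C (y i))).Monic :=
  monic_prod_of_monic _ _ (fun _ _ => monic_X_sub_C _)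

lemma map_prod_C {k : ℕ} (y : Fin k → R) :
    (∏ i, (X - C (y i)) : R[X]).map (C : R →+* R[X]) = ∏ i, (X - C (C (y i))) := by
  rw [Polynomial.map_prod]
  refine prod_congr rfl (fun i _ => ?_)
  simp

lemma QJ_map (y : Fin (s + l) → R) (gS : Fin s → R[X]) (b d : Fin l → R[X]) :
    QJ (∏ i, (X - C (C (y i)))) (fun i => (gS i).map (C : R →+* R[X]))
      (fun j => (b j).map (C : R →+* R[X])) (fun j => (d j).map (C : R →+* R[X]))
      = C (QJ (∏ i, (X - C (y i))) gS b d) := by
  unfold QJ
  rw [map_sum]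
  refine sum_congr rfl (fun τ _ => ?_)
  rw [Helper91.CYC.st_a1 R R[X] C _ _ (monic_prod y), map_prod_C]
  congr 1
  funext x
  refine Fin.addCases (fun i => ?_) (fun i => ?_) x
  · rw [Fin.append_left, Fin.append_left]
  · rw [Fin.append_right, Fin.append_right, Polynomial.map_mul]

lemma coe_sum {ι : Type*} (S : Finset ι) (p : ι → R[X]) :
    ((∑ i ∈ S, p i : R[X]) : PowerSeries R) = ∑ i ∈ S, (p i : PowerSeries R) := by
  have := map_sum (Polynomial.coeToPowerSeries.ringHom (R := R)) p S
  simpa only [Polynomial.coeToPowerSeries.ringHom_apply] using this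

/-- The coefficient of `T^N` in `H * QJ`. -/
theorem raw [CharP R 2] (y : Fin (s + l) → R) (H : PowerSeries R)
    (hH : H * ∏ i, (1 + PowerSeries.C (y i) * PowerSeries.X) = 1)
    (gS : Fin s → R[X]) (b : Fin l → R[X]) (hl : 1 ≤ l) (N : ℕ) :
    PowerSeries.coeff N (H * ((QJ (∏ i, (X - C (C (y i))))
      (fun i => (1 + C X * X) * (gS i).map (C : R →+* R[X]))
      (fun j => (b j).map (C : R →+* R[X])) (fun j => X ^ (j : ℕ)) : R[X]) : PowerSeries R))
      = QJ (∏ i, (X - C (y i))) gS b
          (fun j => if (j : ℕ) + 1 = l then X ^ (N + (l - 1)) else X ^ (j : ℕ)) := by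
  obtain ⟨E, hE⟩ := QJ_exchange (fun i => (C (y i) : R[X])) (X : R[X])
    (fun i => (gS i).map (C : R →+* R[X])) (fun j => (b j).map (C : R →+* R[X])) hl N
  set q : ℕ → R := fun n => QJ (∏ i, (X - C (y i))) gS b
    (fun j => if (j : ℕ) + 1 = l then X ^ (n + (l - 1)) else X ^ (j : ℕ)) with hq
  have h1 : ∀ n : ℕ, QJ (∏ i, (X - C (C (y i)))) (fun i => (gS i).map (C : R →+* R[X]))
      (fun j => (b j).map (C : R →+* R[X]))
      (fun j => if (j : ℕ) + 1 = l then X ^ (n + (l - 1)) else X ^ (j : ℕ)) = C (q n) := by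
    intro n
    rw [hq]
    simp only
    rw [← QJ_map]
    congr 1
    funext j
    split_ifs <;> simp
  simp only [h1] at hE
  rw [hE]
  have h2 : H * (((∏ i, (1 + C (y i) * X)) * ∑ n ∈ range (N + 1), X ^ n * C (q n)
      + X ^ (N + 1) * E : R[X]) : PowerSeries R)
      = (((∑ n ∈ range (N + 1), X ^ n * C (q n) : R[X])) : PowerSeries R)
        + PowerSeries.X ^ (N + 1) * (H * (E : PowerSeries R)) := by
    have h3 : ((∏ i, (1 + C (y i) * X) : R[X]) : PowerSeries R)
        = ∏ i, (1 + PowerSeries.C (y i) * PowerSeries.X) := by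
      have := map_prod (Polynomial.coeToPowerSeries.ringHom (R := R))
        (fun i => (1 + C (y i) * X : R[X])) univ
      simp only [Polynomial.coeToPowerSeries.ringHom_apply] at this
      rw [this]
      refine prod_congr rfl (fun i _ => ?_)
      simp
    rw [Polynomial.coe_add, Polynomial.coe_mul, Polynomial.coe_mul, h3, mul_add, ← mul_assoc, hH,
      one_mul, Polynomial.coe_pow, Polynomial.coe_X]
    ring
  rw [h2, map_add, PowerSeries.coeff_X_pow_mul']
  rw [if_neg (by omega), add_zero, Polynomial.coeff_coe, finsetSum_coeff]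
  rw [Finset.sum_eq_single N]
  · rw [mul_comm, coeff_C_mul, coeff_X_pow, if_pos rfl, mul_one]
  · intro n hn hne
    rw [mul_comm, coeff_C_mul, coeff_X_pow, if_neg (Ne.symm hne), mul_zero]
  · intro h
    exact absurd (mem_range.2 (by omega)) h

end raw

/-! ### The diagonal -/

section diag

variable {A : Type} [CommRing A] {s l : ℕ}

lemma append_eq_dS (F : A[X]) (cS : Fin s → A[X]) (cJ : Fin l → A[X]) :
    dd F (Fin.append cS cJ) = dS F (finSumFinEquiv (m := s) (n := l)) cS cJ := by
  rw [dS]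
  congr 1
  funext x
  refine Fin.addCases (fun i => ?_) (fun i => ?_) x
  · rw [Fin.append_left, finSumFinEquiv_symm_apply_castAdd, Sum.elim_inl]
  · rw [Fin.append_right, finSumFinEquiv_symm_apply_natAdd, Sum.elim_inr]

/-- The double sum over both blocks collapses to the diagonal. -/
lemma diag [CharP A 2] (F P Q : A[X]) :
    ∑ σ : Equiv.Perm (Fin s), ∑ τ : Equiv.Perm (Fin l),
      dd F (Fin.append (fun i => P * X ^ ((i : ℕ) + (σ i : ℕ)))
        (fun j => Q * X ^ ((j : ℕ) + (τ j : ℕ))))
      = dd F (Fin.append (fun i : Fin s => P * X ^ (2 * (i : ℕ)))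
        (fun j : Fin l => Q * X ^ (2 * (j : ℕ)))) := by
  simp only [append_eq_dS]
  set e1 := (finSumFinEquiv (m := s) (n := l)) with he1
  set H : (Fin s → ℕ) → (Fin l → ℕ) → A := fun ES EJ =>
    dS F e1 (fun i => P * X ^ ES i) (fun j => Q * X ^ EJ j) with hH
  have h3 : ∀ σ : Equiv.Perm (Fin s), ∑ τ : Equiv.Perm (Fin l),
      H (fun i => (i : ℕ) + (σ i : ℕ)) (fun j => (j : ℕ) + (τ j : ℕ))
      = H (fun i => (i : ℕ) + (σ i : ℕ)) (fun j => 2 * (j : ℕ)) := by
    intro σ
    refine sq_lemma l (fun EJ => H (fun i => (i : ℕ) + (σ i : ℕ)) EJ) ?_ ?_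
    · intro E τ
      exact dS_permJ F e1 _ (fun j => Q * X ^ (E j)) τ
    · intro E i j hij hE
      refine dS_rep F e1 _ _ (Sum.inr i) (Sum.inr j) (fun hh => hij (Sum.inr_injective hh)) ?_
      simp only [Sum.elim_inr, hE]
  have h4 : ∑ σ : Equiv.Perm (Fin s),
      H (fun i => (i : ℕ) + (σ i : ℕ)) (fun j => 2 * (j : ℕ))
      = H (fun i => 2 * (i : ℕ)) (fun j => 2 * (j : ℕ)) := by
    refine sq_lemma s (fun ES => H ES (fun j => 2 * (j : ℕ))) ?_ ?_
    · intro E σ
      exact dS_permS F e1 (fun i => P * X ^ (E i)) _ σ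
    · intro E i j hij hE
      refine dS_rep F e1 _ _ (Sum.inl i) (Sum.inl j) (fun hh => hij (Sum.inl_injective hh)) ?_
      simp only [Sum.elim_inl, hE]
  calc _ = ∑ σ : Equiv.Perm (Fin s), ∑ τ : Equiv.Perm (Fin l),
      H (fun i => (i : ℕ) + (σ i : ℕ)) (fun j => (j : ℕ) + (τ j : ℕ)) := rfl
    _ = _ := by rw [sum_congr rfl (fun σ _ => h3 σ), h4]

lemma dd_congr_dvd (F : A[X]) (hF : F.Monic) {k : ℕ} (g g' : Fin k → A[X])
    (h : ∀ j, F ∣ g j - g' j) : dd F g = dd F g' := by
  refine Helper89.CYC.dd_congr_mod F g g' (fun j => ?_)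
  have h1 := (modByMonic_eq_zero_iff_dvd hF).2 (h j)
  rw [sub_modByMonic] at h1
  exact sub_eq_zero.1 h1

/-- The inverse of `X` modulo a polynomial with invertible constant coefficient. -/
lemma exists_inv (F : A[X]) (h0 : IsUnit (F.coeff 0)) : ∃ W : A[X], F ∣ X * W - 1 := by
  obtain ⟨u, hu⟩ := h0
  refine ⟨-(C (↑u⁻¹ : A) * divX F), C (-(↑u⁻¹ : A)), ?_⟩
  have h1 := divX_mul_X_add F
  have h2 : (C (↑u⁻¹ : A) * C (F.coeff 0) : A[X]) = 1 := by
    rw [← C_mul, ← hu, Units.inv_mul, C_1]
  rw [C_neg]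
  linear_combination (-C (↑u⁻¹ : A)) * h1 + h2

lemma dvd_pow_sub {F W : A[X]} (h : F ∣ X * W - 1) (n : ℕ) : F ∣ X ^ n * W ^ n - 1 := by
  rw [← mul_pow]
  have h1 := sub_dvd_pow_sub_pow (X * W) (1 : A[X]) n
  rw [one_pow] at h1
  exact dvd_trans h h1

end diag

/-! ### The two relations -/

section final

variable {R : Type} [CommRing R] [CharP R 2]

/-- **(T1)** in determinant form. -/
theorem t1_form (s l : ℕ) (f : R[X]) (hf : f.Monic) (h0 : IsUnit (f.coeff 0))
    (hrel : Rel f s (u1 (s + l) s)) (Γ ψ : R[X]) :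
    dd f (Fin.append (fun i : Fin s => Γ * X ^ (2 * (i : ℕ)))
      (fun j : Fin l => ψ * X ^ (2 * (j : ℕ)))) = 0 := by
  obtain ⟨W, hW⟩ := exists_inv f h0
  have h1 := merge_T1 s l f hrel (fun i => Γ * W ^ l * X ^ (i : ℕ)) (fun j => ψ * X ^ (j : ℕ))
  rw [← diag f Γ ψ, ← h1, PS]
  refine sum_congr rfl (fun σ _ => sum_congr rfl (fun τ _ => ?_))
  refine dd_congr_dvd f hf _ _ (fun x => ?_)
  refine Fin.addCases (fun i => ?_) (fun i => ?_) x
  · rw [Fin.append_left, Fin.append_left]
    obtain ⟨q, hq⟩ := dvd_pow_sub hW l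
    refine ⟨-(Γ * X ^ ((i : ℕ) + (σ i : ℕ)) * q), ?_⟩
    rw [pow_add X l, pow_add X (i : ℕ)]
    linear_combination (-(Γ * X ^ (i : ℕ) * X ^ ((σ i : Fin s) : ℕ))) * hq
  · rw [Fin.append_right, Fin.append_right, pow_add, mul_assoc, sub_self]
    exact dvd_zero _

/-- The surviving term of the merge of weight one. -/
lemma e2_raw (s m jj : ℕ) (hjj : 2 ≤ jj) (f : R[X])
    (hrel : ∀ z : Fin (s + (m + jj)), s ≤ (z : ℕ) → Rel f (s + jj) (u3 (s + (m + jj)) s jj z))
    (a : Fin s → R[X]) (b : Fin (m + jj) → R[X]) :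
    ∑ σ : Equiv.Perm (Fin s), QJ f (fun i => a i * X ^ (m + jj - 1 + (σ i : ℕ))) b
      (fun j => if (j : ℕ) + 1 = m + jj then X ^ (s + 1 + (m + jj - 1)) else X ^ (j : ℕ)) = 0 := by
  have h := merge_L s m jj 1 (by omega) f hrel a b
  rw [Finset.sum_eq_single (s + jj - 1)] at h
  · -- the surviving position
    set E : Fin (m + jj) → ℕ := fun j => if (j : ℕ) + 1 = m + jj then s + (m + jj) else (j : ℕ)
      with hE
    set pf : Fin (m + jj) → Fin (m + jj) := fun t =>
      if (t : ℕ) < m then t else if (t : ℕ) = m then ⟨m + jj - 1, by omega⟩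
        else ⟨(t : ℕ) - 1, by have := t.2; omega⟩ with hpf
    have hinj : Function.Injective pf := by
      intro x y hxy
      have h1 := congrArg (fun t : Fin (m + jj) => (t : ℕ)) hxy
      have hx := x.2
      have hy := y.2
      apply Fin.ext
      rw [hpf] at h1
      simp only at h1
      split_ifs at h1 <;> (try simp only at h1) <;> omega
    set π : Equiv.Perm (Fin (m + jj)) := Equiv.ofBijective pf (Finite.injective_iff_bijective.1 hinj)
      with hπ
    have hC : (fun t : Fin s => cl m (s + jj) (m + (s + jj - 1)) (jj + (t : ℕ)))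
        = fun t : Fin s => m + jj - 1 + (t : ℕ) := by
      funext t
      have := t.2
      unfold cl
      rw [if_neg (by omega)]; omega
    have hEE : (fun t : Fin (m + jj) => if (t : ℕ) < m then (t : ℕ) else if (t : ℕ) = m then
        m + (s + jj - 1) + 1 else cl m (s + jj) (m + (s + jj - 1)) ((t : ℕ) - m))
        = fun t => E (π t) := by
      funext t
      have ht := t.2
      rw [hE, hπ]
      simp only [Equiv.ofBijective_apply, hpf]
      unfold cl
      by_cases h1 : (t : ℕ) < m
      · rw [if_pos h1, if_pos h1, if_neg (by omega)]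
      · by_cases h2 : (t : ℕ) = m
        · rw [if_neg h1, if_pos h2, if_neg h1, if_pos h2]
          simp only
          rw [if_pos (by omega)]; omega
        · rw [if_neg h1, if_neg h2, if_neg h1, if_neg h2, if_neg (by omega)]
          simp only
          rw [if_neg (by omega)]; omega
    rw [hC, hEE, PS_permE, PS] at h
    rw [← h]
    refine sum_congr rfl (fun σ _ => ?_)
    unfold QJ
    refine sum_congr rfl (fun τ _ => ?_)
    congr 1
    funext x
    refine Fin.addCases (fun i => ?_) (fun i => ?_) x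
    · rw [Fin.append_left, Fin.append_left]
    · rw [Fin.append_right, Fin.append_right, hE]
      simp only
      split_ifs with h1
      · congr 2; omega
      · rfl
  · intro i hi hne
    rw [mem_range] at hi
    refine PS_zeroE f a b _ _ ⟨m, by omega⟩ ⟨m + 1, by omega⟩ ?_ ?_
    · intro hh
      have := congrArg (fun t : Fin (m + jj) => (t : ℕ)) hh
      simp at this
    · simp only
      unfold cl
      have h1 : ¬ (m < m) := by omega
      have h2 : ¬ (m + 1 < m) := by omega
      have h3 : ¬ (m + 1 = m) := by omega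
      have h4 : m + i + (m + 1 - m) < m + (s + jj) := by omega
      rw [if_neg h1, if_pos trivial, if_neg h2, if_neg h3, if_pos h4]
      omega
  · intro hh
    exact absurd (mem_range.2 (by omega)) hh

/-- **(E2)** in determinant form. -/
theorem e2_form (s m jj : ℕ) (hjj : 2 ≤ jj) (y : Fin (s + (m + jj)) → R)
    (hy : ∀ i, IsUnit (y i))
    (hrel : ∀ z : Fin (s + (m + jj)), s ≤ (z : ℕ) →
      Rel (∏ i, (X - C (y i))) (s + jj) (u3 (s + (m + jj)) s jj z))
    (H : PowerSeries R) (hH : H * ∏ i, (1 + PowerSeries.C (y i) * PowerSeries.X) = 1)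
    (Γ ψ : R[X]) :
    PowerSeries.coeff (s + 1) (H * ((dd (∏ i, (X - C (C (y i))))
      (Fin.append (fun i : Fin s => Γ.map (C : R →+* R[X]) * (1 + C X * X) * X ^ (2 * (i : ℕ)))
        (fun j : Fin (m + jj) => ψ.map (C : R →+* R[X]) * X ^ (2 * (j : ℕ)))) : R[X])
        : PowerSeries R)) = 0 := by
  set f : R[X] := ∏ i, (X - C (y i)) with hf
  have hf0 : IsUnit (f.coeff 0) := by
    rw [coeff_zero_eq_eval_zero, hf, eval_prod]
    simp only [eval_sub, eval_X, eval_C, zero_sub]
    exact IsUnit.prod_univ_iff.2 (fun i => (hy i).neg)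
  obtain ⟨W, hW⟩ := exists_inv f hf0
  set Z : R[X] := W ^ (m + jj - 1) with hZ
  set F : R[X][X] := ∏ i, (X - C (C (y i))) with hF
  have hFm : F.Monic := monic_prod _
  have hfF : f.map (C : R →+* R[X]) = F := map_prod_C y
  have h1 := e2_raw s m jj hjj f hrel (fun i => Γ * Z * X ^ (i : ℕ)) (fun j => ψ * X ^ (j : ℕ))
  have hkey : dd F (Fin.append (fun i : Fin s => Γ.map (C : R →+* R[X]) * (1 + C X * X)
        * X ^ (2 * (i : ℕ)))
        (fun j : Fin (m + jj) => ψ.map (C : R →+* R[X]) * X ^ (2 * (j : ℕ))))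
      = ∑ σ : Equiv.Perm (Fin s), QJ F
        (fun i => (1 + C X * X) * (Γ * Z * X ^ (i : ℕ) * X ^ (m + jj - 1 + (σ i : ℕ))).map
          (C : R →+* R[X]))
        (fun j : Fin (m + jj) => (ψ * X ^ (j : ℕ)).map (C : R →+* R[X]))
        (fun j => X ^ (j : ℕ)) := by
    rw [← diag F]
    refine sum_congr rfl (fun σ _ => ?_)
    unfold QJ
    refine sum_congr rfl (fun τ _ => ?_)
    refine dd_congr_dvd F hFm _ _ (fun x => ?_)
    refine Fin.addCases (fun i => ?_) (fun i => ?_) x
    · rw [Fin.append_left, Fin.append_left]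
      obtain ⟨q, hq⟩ := dvd_pow_sub hW (m + jj - 1)
      have hq' := congrArg (fun p : R[X] => p.map (C : R →+* R[X])) hq
      simp only [Polynomial.map_sub, Polynomial.map_mul, Polynomial.map_pow, Polynomial.map_X,
        Polynomial.map_one, hfF] at hq'
      refine ⟨-(Γ.map C * (1 + C X * X) * X ^ ((i : ℕ) + (σ i : ℕ)) * q.map C), ?_⟩
      simp only [Polynomial.map_mul, Polynomial.map_pow, Polynomial.map_X, hZ]
      rw [pow_add X (m + jj - 1), pow_add X (i : ℕ)]
      linear_combination (-(Γ.map C * (1 + C X * X) * X ^ (i : ℕ) * X ^ ((σ i : Fin s) : ℕ))) * hq'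
    · rw [Fin.append_right, Fin.append_right, pow_add]
      simp only [Polynomial.map_mul, Polynomial.map_pow, Polynomial.map_X]
      rw [mul_assoc, sub_self]
      exact dvd_zero _
  rw [hkey, coe_sum, mul_sum, map_sum]
  refine Eq.trans (sum_congr rfl (fun σ _ => ?_)) h1
  exact raw (s := s) (l := m + jj) y H hH
    (fun i => Γ * Z * X ^ (i : ℕ) * X ^ (m + jj - 1 + (σ i : ℕ)))
    (fun j => ψ * X ^ (j : ℕ)) (by omega) (s + 1)

end final

end Pool.Agent.Helper54.CYC
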